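import Mathlib

/-!
MP_cf8c5a_ag, module P2: integrability of products of powers of distances to two or three points
of the plane.
-/

open MeasureTheory Metric

namespace Pool.Agent.helper11.AZ

/-- the local singularity. -/
lemma sing_integrable {e : ℝ} (he2 : e < 2) (c : ℂ) (δ : ℝ) :
    Integrable (Set.indicator (ball c δ) (fun u : ℂ => ‖u - c‖ ^ (-e))) := by
  have h0 : IntegrableOn (fun u : ℂ => ‖u‖ ^ (-e)) (ball (0 : ℂ) δ) := by
    refine integrableOn_ball_of_norm_le_rpow (μ := volume) (C := 1) (α := e) ?_ ?_ ?_ ?_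
    · rw [Complex.finrank_real_complex]; norm_num
    · rw [Complex.finrank_real_complex]; exact_mod_cast he2
    · refine Filter.Eventually.of_forall fun x => ?_
      rw [Real.norm_of_nonneg (by positivity), one_mul]
    · exact (by fun_prop : Measurable fun u : ℂ => ‖u‖ ^ (-e)).aestronglyMeasurable
  have h1 : Integrable (Set.indicator (ball (0 : ℂ) δ) (fun u : ℂ => ‖u‖ ^ (-e))) :=
    (integrable_indicator_iff measurableSet_ball).2 h0
  have h2 := h1.comp_sub_right c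
  refine h2.congr (Filter.Eventually.of_forall fun u => ?_)
  show (ball (0 : ℂ) δ).indicator (fun u => ‖u‖ ^ (-e)) (u - c) =
    (ball c δ).indicator (fun u => ‖u - c‖ ^ (-e)) u
  by_cases hu : ‖u - c‖ < δ
  · rw [Set.indicator_of_mem (by rwa [mem_ball, dist_zero_right]),
      Set.indicator_of_mem (by rwa [mem_ball, dist_eq_norm])]
  · rw [Set.indicator_of_notMem (by rwa [mem_ball, dist_zero_right]),
      Set.indicator_of_notMem (by rwa [mem_ball, dist_eq_norm])]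

lemma far_bound {e δ : ℝ} (he : 0 ≤ e) (hδ : 0 < δ) (c u : ℂ) (h : δ ≤ ‖u - c‖) :
    ‖u - c‖ ^ (-e) ≤ (1 + (1 + ‖c‖) / δ) ^ e * (1 + ‖u‖) ^ (-e) := by
  have hpos : 0 < ‖u - c‖ := lt_of_lt_of_le hδ h
  have hK : 0 < 1 + (1 + ‖c‖) / δ := by positivity
  have h1 : 1 + ‖u‖ ≤ (1 + (1 + ‖c‖) / δ) * ‖u - c‖ := by
    have h2 : ‖u‖ ≤ ‖u - c‖ + ‖c‖ := by
      calc ‖u‖ = ‖(u - c) + c‖ := by rw [sub_add_cancel]
        _ ≤ _ := norm_add_le _ _
    have h3 : 1 + ‖c‖ ≤ (1 + ‖c‖) / δ * ‖u - c‖ := by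
      rw [div_mul_eq_mul_div, le_div_iff₀ hδ]
      exact mul_le_mul_of_nonneg_left h (by positivity)
    nlinarith
  have hu : 0 < 1 + ‖u‖ := by positivity
  rw [Real.rpow_neg hpos.le, Real.rpow_neg hu.le, ← div_eq_mul_inv, inv_eq_one_div,
    div_le_div_iff₀ (by positivity) (by positivity), one_mul, ← Real.mul_rpow hK.le hpos.le]
  exact Real.rpow_le_rpow hu.le h1 he

lemma near_bound {e δ : ℝ} (he : 0 ≤ e) (hδ : 0 < δ) (c u : ℂ) (h : δ ≤ ‖u - c‖) :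
    ‖u - c‖ ^ (-e) ≤ δ ^ (-e) :=
  Real.rpow_le_rpow_of_nonpos hδ h (by linarith)

lemma mul3 {a b c a' b' c' : ℝ} (ha : a ≤ a') (hb : b ≤ b') (hc : c ≤ c') (h0b : 0 ≤ b)
    (h0c : 0 ≤ c) (h0a' : 0 ≤ a') (h0b' : 0 ≤ b') : a * b * c ≤ a' * b' * c' :=
  mul_le_mul (mul_le_mul ha hb h0b h0a') hc h0c (mul_nonneg h0a' h0b')

theorem three_point_gen {p q r : ℝ} {a b c : ℂ} (hca : c ≠ a) (hcb : c ≠ b) (hab : a ≠ b)
    (hp : 0 ≤ p) (hp2 : p < 2) (hq : 0 ≤ q) (hq2 : q < 2) (hr : 0 ≤ r) (hr2 : r < 2)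
    (h : 2 < p + q + r) :
    Integrable (fun u : ℂ => ‖u - c‖ ^ (-p) * ‖u - a‖ ^ (-q) * ‖u - b‖ ^ (-r)) := by
  obtain ⟨δ, hδ, h1, h2, h3⟩ : ∃ δ > 0, 2 * δ ≤ ‖c - a‖ ∧ 2 * δ ≤ ‖c - b‖ ∧ 2 * δ ≤ ‖a - b‖ := by
    have h1 : 0 < ‖c - a‖ := norm_pos_iff.2 (sub_ne_zero.2 hca)
    have h2 : 0 < ‖c - b‖ := norm_pos_iff.2 (sub_ne_zero.2 hcb)
    have h3 : 0 < ‖a - b‖ := norm_pos_iff.2 (sub_ne_zero.2 hab)
    refine ⟨min ‖c - a‖ (min ‖c - b‖ ‖a - b‖) / 2, by positivity, ?_, ?_, ?_⟩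
    · linarith [min_le_left ‖c - a‖ (min ‖c - b‖ ‖a - b‖)]
    · linarith [min_le_right ‖c - a‖ (min ‖c - b‖ ‖a - b‖), min_le_left ‖c - b‖ ‖a - b‖]
    · linarith [min_le_right ‖c - a‖ (min ‖c - b‖ ‖a - b‖), min_le_right ‖c - b‖ ‖a - b‖]
  -- the dominating function
  set G : ℂ → ℝ := fun u =>
    (δ ^ (-q) * δ ^ (-r)) * Set.indicator (ball c δ) (fun u : ℂ => ‖u - c‖ ^ (-p)) u +
    (δ ^ (-p) * δ ^ (-r)) * Set.indicator (ball a δ) (fun u : ℂ => ‖u - a‖ ^ (-q)) u +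
    (δ ^ (-p) * δ ^ (-q)) * Set.indicator (ball b δ) (fun u : ℂ => ‖u - b‖ ^ (-r)) u +
    ((1 + (1 + ‖c‖) / δ) ^ p * (1 + (1 + ‖a‖) / δ) ^ q * (1 + (1 + ‖b‖) / δ) ^ r) *
      (1 + ‖u‖) ^ (-(p + q + r)) with hG
  have hGi : Integrable G := by
    refine ((((sing_integrable hp2 c δ).const_mul _).add
      ((sing_integrable hq2 a δ).const_mul _)).add
      ((sing_integrable hr2 b δ).const_mul _)).add (Integrable.const_mul ?_ _)
    apply integrable_one_add_norm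
    rw [Complex.finrank_real_complex]; exact_mod_cast h
  refine hGi.mono' (by fun_prop) (Filter.Eventually.of_forall fun u => ?_)
  rw [Real.norm_of_nonneg (by positivity)]
  have hind : ∀ (x : ℂ) (e : ℝ), 0 ≤ Set.indicator (ball x δ) (fun u : ℂ => ‖u - x‖ ^ (-e)) u :=
    fun x e => Set.indicator_nonneg (fun _ _ => by positivity) _
  have n1 : 0 ≤ (δ ^ (-q) * δ ^ (-r)) *
    Set.indicator (ball c δ) (fun u : ℂ => ‖u - c‖ ^ (-p)) u :=
    mul_nonneg (by positivity) (hind _ _)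
  have n2 : 0 ≤ (δ ^ (-p) * δ ^ (-r)) *
    Set.indicator (ball a δ) (fun u : ℂ => ‖u - a‖ ^ (-q)) u :=
    mul_nonneg (by positivity) (hind _ _)
  have n3 : 0 ≤ (δ ^ (-p) * δ ^ (-q)) *
    Set.indicator (ball b δ) (fun u : ℂ => ‖u - b‖ ^ (-r)) u :=
    mul_nonneg (by positivity) (hind _ _)
  have n4 : 0 ≤ ((1 + (1 + ‖c‖) / δ) ^ p * (1 + (1 + ‖a‖) / δ) ^ q * (1 + (1 + ‖b‖) / δ) ^ r) *
      (1 + ‖u‖) ^ (-(p + q + r)) := by positivity
  have tri : ∀ x y : ℂ, ‖x - y‖ ≤ ‖u - x‖ + ‖u - y‖ := fun x y => by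
    have e : x - y = -(u - x) + (u - y) := by ring
    rw [e]
    exact (norm_add_le _ _).trans (by rw [norm_neg])
  show _ ≤ _ + _ + _ + _
  by_cases hc : ‖u - c‖ < δ
  · have ha' : δ ≤ ‖u - a‖ := by linarith [tri c a]
    have hb' : δ ≤ ‖u - b‖ := by linarith [tri c b]
    have e1 : Set.indicator (ball c δ) (fun u : ℂ => ‖u - c‖ ^ (-p)) u = ‖u - c‖ ^ (-p) := by
      rw [Set.indicator_of_mem]
      rwa [mem_ball, dist_eq_norm]
    have : ‖u - c‖ ^ (-p) * ‖u - a‖ ^ (-q) * ‖u - b‖ ^ (-r) ≤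
        (δ ^ (-q) * δ ^ (-r)) * Set.indicator (ball c δ) (fun u : ℂ => ‖u - c‖ ^ (-p)) u := by
      rw [e1]
      calc ‖u - c‖ ^ (-p) * ‖u - a‖ ^ (-q) * ‖u - b‖ ^ (-r)
          ≤ ‖u - c‖ ^ (-p) * δ ^ (-q) * δ ^ (-r) :=
            mul3 le_rfl (near_bound hq hδ a u ha') (near_bound hr hδ b u hb')
              (by positivity) (by positivity) (by positivity) (by positivity)
        _ = _ := by ring
    linarith
  by_cases ha : ‖u - a‖ < δ
  · have hb' : δ ≤ ‖u - b‖ := by linarith [tri a b]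
    have e1 : Set.indicator (ball a δ) (fun u : ℂ => ‖u - a‖ ^ (-q)) u = ‖u - a‖ ^ (-q) := by
      rw [Set.indicator_of_mem]
      rwa [mem_ball, dist_eq_norm]
    have : ‖u - c‖ ^ (-p) * ‖u - a‖ ^ (-q) * ‖u - b‖ ^ (-r) ≤
        (δ ^ (-p) * δ ^ (-r)) * Set.indicator (ball a δ) (fun u : ℂ => ‖u - a‖ ^ (-q)) u := by
      rw [e1]
      calc ‖u - c‖ ^ (-p) * ‖u - a‖ ^ (-q) * ‖u - b‖ ^ (-r)
          ≤ δ ^ (-p) * ‖u - a‖ ^ (-q) * δ ^ (-r) :=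
            mul3 (near_bound hp hδ c u (not_lt.1 hc)) le_rfl (near_bound hr hδ b u hb')
              (by positivity) (by positivity) (by positivity) (by positivity)
        _ = _ := by ring
    linarith
  by_cases hb : ‖u - b‖ < δ
  · have e1 : Set.indicator (ball b δ) (fun u : ℂ => ‖u - b‖ ^ (-r)) u = ‖u - b‖ ^ (-r) := by
      rw [Set.indicator_of_mem]
      rwa [mem_ball, dist_eq_norm]
    have : ‖u - c‖ ^ (-p) * ‖u - a‖ ^ (-q) * ‖u - b‖ ^ (-r) ≤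
        (δ ^ (-p) * δ ^ (-q)) * Set.indicator (ball b δ) (fun u : ℂ => ‖u - b‖ ^ (-r)) u := by
      rw [e1]
      exact mul3 (near_bound hp hδ c u (not_lt.1 hc)) (near_bound hq hδ a u (not_lt.1 ha)) le_rfl
        (by positivity) (by positivity) (by positivity) (by positivity)
    linarith
  · have : ‖u - c‖ ^ (-p) * ‖u - a‖ ^ (-q) * ‖u - b‖ ^ (-r) ≤
        ((1 + (1 + ‖c‖) / δ) ^ p * (1 + (1 + ‖a‖) / δ) ^ q * (1 + (1 + ‖b‖) / δ) ^ r) *
        (1 + ‖u‖) ^ (-(p + q + r)) := by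
      have hu : 0 < 1 + ‖u‖ := by positivity
      have hexp : (1 + ‖u‖) ^ (-(p + q + r)) =
          (1 + ‖u‖) ^ (-p) * (1 + ‖u‖) ^ (-q) * (1 + ‖u‖) ^ (-r) := by
        rw [← Real.rpow_add hu, ← Real.rpow_add hu]
        congr 1; ring
      rw [hexp]
      calc ‖u - c‖ ^ (-p) * ‖u - a‖ ^ (-q) * ‖u - b‖ ^ (-r)
          ≤ ((1 + (1 + ‖c‖) / δ) ^ p * (1 + ‖u‖) ^ (-p)) *
            ((1 + (1 + ‖a‖) / δ) ^ q * (1 + ‖u‖) ^ (-q)) *
            ((1 + (1 + ‖b‖) / δ) ^ r * (1 + ‖u‖) ^ (-r)) :=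
            mul3 (far_bound hp hδ c u (not_lt.1 hc)) (far_bound hq hδ a u (not_lt.1 ha))
              (far_bound hr hδ b u (not_lt.1 hb))
              (by positivity) (by positivity) (by positivity) (by positivity)
        _ = _ := by ring
    linarith

theorem three_point {p q r : ℝ} {a b : ℂ} (ha : a ≠ 0) (hb : b ≠ 0) (hab : a ≠ b)
    (hp : 0 ≤ p) (hp2 : p < 2) (hq : 0 ≤ q) (hq2 : q < 2) (hr : 0 ≤ r) (hr2 : r < 2)
    (h : 2 < p + q + r) :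
    Integrable (fun u : ℂ => ‖u‖ ^ (-p) * ‖u - a‖ ^ (-q) * ‖u - b‖ ^ (-r)) := by
  have := three_point_gen (c := 0) ha.symm hb.symm hab hp hp2 hq hq2 hr hr2 h
  simpa only [sub_zero] using this

theorem two_point {α β : ℝ} (hα : 0 ≤ α) (hα2 : α < 2) (hβ : 0 ≤ β) (hβ2 : β < 2)
    (h : 2 < α + β) : Integrable (fun y : ℂ => ‖y‖ ^ (-α) * ‖y - 1‖ ^ (-β)) := by
  have := three_point (p := α) (q := β) (r := 0) (a := 1) (b := 2) one_ne_zero two_ne_zero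
    (by norm_num) hα hα2 hβ hβ2 le_rfl two_pos (by linarith)
  simpa only [neg_zero, Real.rpow_zero, mul_one] using this

end Pool.Agent.helper11.AZ
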