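import Pool.Agent.helper67.AZ.Defs
import Pool.Agent.helper11.AZ.P2

/-!
MP_cf8c5a_ag, module P3: the dominating function `Dom t R` is integrable on `ℂ³`.
-/

open MeasureTheory Metric
open Pool.Agent.helper67.AZ (mf Dom)

namespace Pool.Agent.helper11.AZ

/-- change of variables `x = z u` in the plane. -/
lemma lintegral_scale {z : ℂ} (hz : z ≠ 0) (g : ℂ → ENNReal) :
    ∫⁻ x, g x = ENNReal.ofReal (‖z‖ ^ 2) * ∫⁻ x, g (z * x) := by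
  have hdet : LinearMap.det (Algebra.lmul ℝ ℂ z) = ‖z‖ ^ 2 := by
    rw [← Algebra.norm_apply, Algebra.norm_complex_apply, Complex.normSq_eq_norm_sq]
  have hzn : 0 < ‖z‖ := norm_pos_iff.2 hz
  have hdet0 : LinearMap.det (Algebra.lmul ℝ ℂ z) ≠ 0 := by rw [hdet]; positivity
  have hmap := Measure.map_linearMap_addHaar_eq_smul_addHaar (volume : Measure ℂ) hdet0
  let e : ℂ ≃ᵐ ℂ := (Homeomorph.mulLeft₀ z hz).toMeasurableEquiv
  have he : ((Algebra.lmul ℝ ℂ z : ℂ →ₗ[ℝ] ℂ) : ℂ → ℂ) = e := by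
    ext x; rfl
  rw [he, hdet] at hmap
  have h1 : ∫⁻ x, g (z * x) = ∫⁻ x, g x ∂(Measure.map e volume) := (lintegral_map_equiv g e).symm
  rw [h1, hmap, lintegral_smul_measure, smul_eq_mul, ← mul_assoc,
    ← ENNReal.ofReal_mul (by positivity), abs_of_nonneg (by positivity),
    mul_inv_cancel₀ (by positivity), ENNReal.ofReal_one, one_mul]

/-- one term of the dominating function. -/
noncomputable def Fj (t j k l : ℝ) (x y z : ℂ) : ℝ :=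
  ‖x‖ ^ (-(32 / 25) : ℝ) * ‖z‖ ^ (-(38 / 25) : ℝ) * ‖(j : ℂ) * x - z‖ ^ (-(44 / 25) : ℝ) *
    (‖x‖ + ‖z‖) * ‖y‖ ^ (-(19 / 25) : ℝ) * (‖x‖ + ‖y‖ + ‖z‖) ^ ((1 / 10) : ℝ) *
    ‖mf t ((k : ℂ) * x) y ((l : ℂ) * z)‖ ^ (-(44 / 25) : ℝ)

lemma Fj_nonneg (t j k l : ℝ) (x y z : ℂ) : 0 ≤ Fj t j k l x y z := by
  unfold Fj; positivity

lemma Fj_meas (t j k l : ℝ) :
    Measurable (fun p : ℂ × ℂ × ℂ => Fj t j k l p.1 p.2.1 p.2.2) := by
  unfold Fj mf; fun_prop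

lemma Fj_scale (t j k l : ℝ) {z : ℂ} (hz : z ≠ 0) (u v : ℂ) :
    Fj t j k l (z * u) (z * v) z = ‖z‖ ^ (-(299 / 50) : ℝ) * Fj t j k l u v 1 := by
  have hzn : 0 < ‖z‖ := norm_pos_iff.2 hz
  have e1 : ‖(j : ℂ) * (z * u) - z‖ = ‖z‖ * ‖(j : ℂ) * u - 1‖ := by
    rw [← norm_mul]; congr 1; ring
  have e2 : ‖mf t ((k : ℂ) * (z * u)) (z * v) ((l : ℂ) * z)‖ =
      ‖z‖ * ‖mf t ((k : ℂ) * u) v ((l : ℂ) * 1)‖ := by
    rw [← norm_mul]; congr 1; unfold mf; ring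
  have e3 : ‖z * u‖ + ‖z‖ = ‖z‖ * (‖u‖ + ‖(1 : ℂ)‖) := by
    rw [norm_mul, norm_one]; ring
  have e4 : ‖z * u‖ + ‖z * v‖ + ‖z‖ = ‖z‖ * (‖u‖ + ‖v‖ + ‖(1 : ℂ)‖) := by
    rw [norm_mul, norm_mul, norm_one]; ring
  have e5 : ‖z‖ ^ (-(299 / 50) : ℝ) = ‖z‖ ^ (-(32 / 25) : ℝ) * ‖z‖ ^ (-(38 / 25) : ℝ) *
      ‖z‖ ^ (-(44 / 25) : ℝ) * ‖z‖ * ‖z‖ ^ (-(19 / 25) : ℝ) * ‖z‖ ^ ((1 / 10) : ℝ) *
      ‖z‖ ^ (-(44 / 25) : ℝ) := by
    rw [← Real.rpow_add hzn, ← Real.rpow_add hzn, ← Real.rpow_add_one hzn.ne',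
      ← Real.rpow_add hzn, ← Real.rpow_add hzn, ← Real.rpow_add hzn]
    congr 1; norm_num
  unfold Fj
  rw [e1, e2, e3, e4, e5, norm_mul z u, norm_mul z v, Real.mul_rpow (norm_nonneg _) (norm_nonneg _),
    Real.mul_rpow (norm_nonneg _) (norm_nonneg _), Real.mul_rpow (norm_nonneg _) (norm_nonneg _),
    Real.mul_rpow (norm_nonneg _) (by positivity), Real.mul_rpow (norm_nonneg _) (norm_nonneg _),
    norm_one, Real.one_rpow]
  ring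

/-- scaled two point integral. -/
lemma lintegral_two {p d : ℝ} {w : ℂ} (hw : w ≠ 0) :
    ∫⁻ v : ℂ, ENNReal.ofReal (‖v‖ ^ (-p) * ‖v - w‖ ^ (-d)) =
      ENNReal.ofReal (‖w‖ ^ (2 - p - d)) *
        ∫⁻ v : ℂ, ENNReal.ofReal (‖v‖ ^ (-p) * ‖v - 1‖ ^ (-d)) := by
  have hwn : 0 < ‖w‖ := norm_pos_iff.2 hw
  rw [lintegral_scale hw]
  have e : ∀ v : ℂ, ENNReal.ofReal (‖w * v‖ ^ (-p) * ‖w * v - w‖ ^ (-d)) =
      ENNReal.ofReal (‖w‖ ^ (-p - d)) * ENNReal.ofReal (‖v‖ ^ (-p) * ‖v - 1‖ ^ (-d)) := by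
    intro v
    rw [← ENNReal.ofReal_mul (by positivity)]
    congr 1
    have e1 : ‖w * v - w‖ = ‖w‖ * ‖v - 1‖ := by rw [← norm_mul]; congr 1; ring
    have e2 : ‖w‖ ^ (-p - d) = ‖w‖ ^ (-p) * ‖w‖ ^ (-d) := by
      rw [← Real.rpow_add hwn]; congr 1
    rw [e1, norm_mul, Real.mul_rpow (norm_nonneg _) (norm_nonneg _),
      Real.mul_rpow (norm_nonneg _) (norm_nonneg _), e2]
    ring
  simp_rw [e]
  rw [lintegral_const_mul _ (by fun_prop), ← mul_assoc, ← ENNReal.ofReal_mul (by positivity)]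
  congr 2
  rw [← Real.rpow_natCast ‖w‖ 2, ← Real.rpow_add hwn]
  congr 1; push_cast; ring

lemma lintegral_lt_top_of_integrable {X : Type*} [MeasurableSpace X] {μ : Measure X} {f : X → ℝ}
    (h : Integrable f μ) : ∫⁻ x, ENNReal.ofReal (f x) ∂μ < ⊤ := by
  refine lt_of_le_of_lt (lintegral_mono fun x => ?_) h.2
  rw [← ofReal_norm]
  exact ENNReal.ofReal_le_ofReal (Real.le_norm_self _)

lemma add_one_rpow_le {s x : ℝ} (hs : 0 ≤ s) (hx : 0 ≤ x) :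
    (x + 1) ^ s ≤ 2 ^ s * (x ^ s + 1) := by
  rcases le_total x 1 with h | h
  · calc (x + 1) ^ s ≤ 2 ^ s := Real.rpow_le_rpow (by positivity) (by linarith) hs
      _ = 2 ^ s * 1 := (mul_one _).symm
      _ ≤ _ := mul_le_mul_of_nonneg_left (by linarith [Real.rpow_nonneg hx s]) (by positivity)
  · calc (x + 1) ^ s ≤ (2 * x) ^ s := Real.rpow_le_rpow (by positivity) (by linarith) hs
      _ = 2 ^ s * x ^ s := Real.mul_rpow (by norm_num) hx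
      _ ≤ _ := mul_le_mul_of_nonneg_left (by linarith) (by positivity)

lemma three_point_growth {p q r s : ℝ} {a b : ℂ} (ha : a ≠ 0) (hb : b ≠ 0) (hab : a ≠ b)
    (hs : 0 ≤ s) (hsp : s ≤ p) (hp2 : p < 2) (hq : 0 ≤ q) (hq2 : q < 2) (hr : 0 ≤ r) (hr2 : r < 2)
    (h : 2 < p + q + r - s) :
    Integrable (fun u : ℂ => (‖u‖ + 1) ^ s * (‖u‖ ^ (-p) * ‖u - a‖ ^ (-q) * ‖u - b‖ ^ (-r))) := by
  have h1 := three_point (p := p - s) ha hb hab (by linarith) (by linarith) hq hq2 hr hr2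
    (by linarith)
  have h2 := three_point (p := p) ha hb hab (by linarith) hp2 hq hq2 hr hr2 (by linarith)
  refine ((h1.add h2).const_mul (2 ^ s)).mono' (by fun_prop)
    (Filter.Eventually.of_forall fun u => ?_)
  rw [Real.norm_of_nonneg (by positivity)]
  have hle := add_one_rpow_le hs (norm_nonneg u)
  show _ ≤ (2 : ℝ) ^ s * (_ + _)
  by_cases hu : u = 0
  · subst hu
    have : (‖(0 : ℂ)‖ + 1) ^ s ≤ 2 ^ s := by
      rw [norm_zero, zero_add]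
      exact Real.rpow_le_rpow zero_le_one one_le_two hs
    exact mul_le_mul this (le_add_of_nonneg_left (by positivity)) (by positivity) (by positivity)
  · have hun : 0 < ‖u‖ := norm_pos_iff.2 hu
    have e : ‖u‖ ^ (-(p - s)) = ‖u‖ ^ s * ‖u‖ ^ (-p) := by
      rw [← Real.rpow_add hun]; congr 1; ring
    calc (‖u‖ + 1) ^ s * (‖u‖ ^ (-p) * ‖u - a‖ ^ (-q) * ‖u - b‖ ^ (-r))
        ≤ (2 ^ s * (‖u‖ ^ s + 1)) * (‖u‖ ^ (-p) * ‖u - a‖ ^ (-q) * ‖u - b‖ ^ (-r)) :=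
          mul_le_mul_of_nonneg_right hle (by positivity)
      _ = 2 ^ s * (‖u‖ ^ (-(p - s)) * ‖u - a‖ ^ (-q) * ‖u - b‖ ^ (-r) +
            ‖u‖ ^ (-p) * ‖u - a‖ ^ (-q) * ‖u - b‖ ^ (-r)) := by rw [e]; ring

/-- the `u`-part. -/
lemma u_integrable {t j k l s r : ℝ} (ht : 0 < t) (ht1 : t < 1) (hj : 0 < j) (hk : 0 < k)
    (hl : 0 < l) (hs : 0 ≤ s) (hs2 : s ≤ 32 / 25) (hr : 0 ≤ r) (hr2 : r < 2)
    (h : s < 26 / 25 + r) :
    Integrable (fun u : ℂ => (‖u‖ + 1) ^ s * (‖u‖ ^ (-(32 / 25) : ℝ) *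
      ‖(j : ℂ) * u - 1‖ ^ (-(44 / 25) : ℝ) * ‖(1 - (t : ℂ)) * l + t * (k * u)‖ ^ (-r))) := by
  have hjc : (j : ℂ) ≠ 0 := by exact_mod_cast hj.ne'
  have hkc : (k : ℂ) ≠ 0 := by exact_mod_cast hk.ne'
  have htc : (t : ℂ) ≠ 0 := by exact_mod_cast ht.ne'
  have hb0 : 0 < (1 - t) * l / (t * k) := by
    have : 0 < 1 - t := by linarith
    positivity
  have hbase := three_point_growth (p := 32 / 25) (q := 44 / 25) (r := r) (s := s)
    (a := ((j⁻¹ : ℝ) : ℂ)) (b := ((-((1 - t) * l / (t * k)) : ℝ) : ℂ))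
    (by exact_mod_cast (inv_pos.2 hj).ne') (by exact_mod_cast (neg_lt_zero.2 hb0).ne)
    (by
      intro hh
      have h1 : j⁻¹ = -((1 - t) * l / (t * k)) := by exact_mod_cast hh
      have := inv_pos.2 hj
      linarith) hs hs2 (by norm_num) (by norm_num) (by norm_num) hr hr2 (by linarith)
  refine (hbase.const_mul (j ^ (-(44 / 25) : ℝ) * (t * k) ^ (-r))).congr
    (Filter.Eventually.of_forall fun u => ?_)
  have e1 : ‖(j : ℂ) * u - 1‖ = j * ‖u - ((j⁻¹ : ℝ) : ℂ)‖ := by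
    have : ‖(j : ℂ)‖ = j := by rw [Complex.norm_real, Real.norm_of_nonneg hj.le]
    rw [← this, ← norm_mul]
    congr 1
    rw [mul_sub, this]
    push_cast
    rw [mul_inv_cancel₀ hjc]
  have e2 : ‖(1 - (t : ℂ)) * l + t * (k * u)‖ =
      (t * k) * ‖u - ((-((1 - t) * l / (t * k)) : ℝ) : ℂ)‖ := by
    have : ‖((t * k : ℝ) : ℂ)‖ = t * k := by
      rw [Complex.norm_real, Real.norm_of_nonneg (by positivity)]
    rw [← this, ← norm_mul]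
    congr 1
    rw [this]
    push_cast
    field_simp
    ring
  show (j ^ (-(44 / 25) : ℝ) * (t * k) ^ (-r)) * _ = (‖u‖ + 1) ^ s * (‖u‖ ^ (-(32 / 25) : ℝ) *
      ‖(j : ℂ) * u - 1‖ ^ (-(44 / 25) : ℝ) * ‖(1 - (t : ℂ)) * l + t * (k * u)‖ ^ (-r))
  rw [e1, e2, Real.mul_rpow hj.le (norm_nonneg _), Real.mul_rpow (by positivity) (norm_nonneg _)]
  ring

lemma Fj_le (t j k l : ℝ) (u v : ℂ) :
    Fj t j k l u v 1 ≤
      ((‖u‖ + 1) ^ (1 : ℝ) * (‖u‖ ^ (-(32 / 25) : ℝ) * ‖(j : ℂ) * u - 1‖ ^ (-(44 / 25) : ℝ))) *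
        (‖v‖ ^ (-(33 / 50) : ℝ) *
          ‖v - ((1 - (t : ℂ)) * l + t * (k * u))‖ ^ (-(44 / 25) : ℝ)) +
      ((‖u‖ + 1) ^ (11 / 10 : ℝ) *
        (‖u‖ ^ (-(32 / 25) : ℝ) * ‖(j : ℂ) * u - 1‖ ^ (-(44 / 25) : ℝ))) *
        (‖v‖ ^ (-(19 / 25) : ℝ) *
          ‖v - ((1 - (t : ℂ)) * l + t * (k * u))‖ ^ (-(44 / 25) : ℝ)) := by
  have e1 : mf t ((k : ℂ) * u) v ((l : ℂ) * 1) = v - ((1 - (t : ℂ)) * l + t * (k * u)) := by
    unfold mf; ring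
  have h1 : (‖u‖ + ‖v‖ + 1) ^ ((1 / 10) : ℝ) ≤
      ‖v‖ ^ ((1 / 10) : ℝ) + (‖u‖ + 1) ^ ((1 / 10) : ℝ) := by
    have := Real.rpow_add_le_add_rpow (p := 1 / 10) (norm_nonneg v)
      (by positivity : 0 ≤ ‖u‖ + 1) (by norm_num) (by norm_num)
    have e : ‖u‖ + ‖v‖ + 1 = ‖v‖ + (‖u‖ + 1) := by ring
    rwa [e]
  have h2 : ‖v‖ ^ (-(19 / 25) : ℝ) * ‖v‖ ^ ((1 / 10) : ℝ) ≤ ‖v‖ ^ (-(33 / 50) : ℝ) := by
    by_cases hv : v = 0
    · subst hv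
      rw [norm_zero, Real.zero_rpow (by norm_num : (-(19 / 25) : ℝ) ≠ 0), zero_mul]
      positivity
    · have hvn : 0 < ‖v‖ := norm_pos_iff.2 hv
      rw [← Real.rpow_add hvn]
      apply le_of_eq
      congr 1; norm_num
  have h3 : (‖u‖ + 1) ^ (11 / 10 : ℝ) = (‖u‖ + 1) * (‖u‖ + 1) ^ ((1 / 10) : ℝ) := by
    have hpos : 0 < ‖u‖ + 1 := by positivity
    rw [mul_comm, ← Real.rpow_add_one hpos.ne']
    congr 1; norm_num
  have h4 : ‖v‖ ^ (-(19 / 25) : ℝ) * (‖u‖ + ‖v‖ + 1) ^ ((1 / 10) : ℝ) ≤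
      ‖v‖ ^ (-(33 / 50) : ℝ) + (‖u‖ + 1) ^ ((1 / 10) : ℝ) * ‖v‖ ^ (-(19 / 25) : ℝ) := by
    calc ‖v‖ ^ (-(19 / 25) : ℝ) * (‖u‖ + ‖v‖ + 1) ^ ((1 / 10) : ℝ)
        ≤ ‖v‖ ^ (-(19 / 25) : ℝ) * (‖v‖ ^ ((1 / 10) : ℝ) + (‖u‖ + 1) ^ ((1 / 10) : ℝ)) :=
          mul_le_mul_of_nonneg_left h1 (by positivity)
      _ = ‖v‖ ^ (-(19 / 25) : ℝ) * ‖v‖ ^ ((1 / 10) : ℝ) +
            (‖u‖ + 1) ^ ((1 / 10) : ℝ) * ‖v‖ ^ (-(19 / 25) : ℝ) := by ring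
      _ ≤ _ := by linarith
  unfold Fj
  rw [e1, norm_one, Real.one_rpow, h3, Real.rpow_one]
  set A := ‖u‖ ^ (-(32 / 25) : ℝ) with hA
  set B := ‖(j : ℂ) * u - 1‖ ^ (-(44 / 25) : ℝ) with hB
  set W := ‖v - ((1 - (t : ℂ)) * l + t * (k * u))‖ ^ (-(44 / 25) : ℝ) with hW
  have hA0 : 0 ≤ A := by positivity
  have hB0 : 0 ≤ B := by positivity
  have hW0 : 0 ≤ W := by positivity
  calc A * 1 * B * (‖u‖ + 1) * ‖v‖ ^ (-(19 / 25) : ℝ) * (‖u‖ + ‖v‖ + 1) ^ ((1 / 10) : ℝ) * W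
      = (A * B * (‖u‖ + 1) * W) *
          (‖v‖ ^ (-(19 / 25) : ℝ) * (‖u‖ + ‖v‖ + 1) ^ ((1 / 10) : ℝ)) := by ring
    _ ≤ (A * B * (‖u‖ + 1) * W) *
          (‖v‖ ^ (-(33 / 50) : ℝ) + (‖u‖ + 1) ^ ((1 / 10) : ℝ) * ‖v‖ ^ (-(19 / 25) : ℝ)) :=
        mul_le_mul_of_nonneg_left h4 (by positivity)
    _ = _ := by ring

lemma Fj_inner {t j k l : ℝ} (u : ℂ) (hw : (1 - (t : ℂ)) * l + t * (k * u) ≠ 0) :
    ∫⁻ v : ℂ, ENNReal.ofReal (Fj t j k l u v 1) ≤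
      ENNReal.ofReal ((‖u‖ + 1) ^ (1 : ℝ) * (‖u‖ ^ (-(32 / 25) : ℝ) *
        ‖(j : ℂ) * u - 1‖ ^ (-(44 / 25) : ℝ) *
          ‖(1 - (t : ℂ)) * l + t * (k * u)‖ ^ (-(21 / 50) : ℝ))) *
      (∫⁻ v : ℂ, ENNReal.ofReal (‖v‖ ^ (-(33 / 50) : ℝ) * ‖v - 1‖ ^ (-(44 / 25) : ℝ))) +
      ENNReal.ofReal ((‖u‖ + 1) ^ (11 / 10 : ℝ) * (‖u‖ ^ (-(32 / 25) : ℝ) *
        ‖(j : ℂ) * u - 1‖ ^ (-(44 / 25) : ℝ) *
          ‖(1 - (t : ℂ)) * l + t * (k * u)‖ ^ (-(13 / 25) : ℝ))) *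
      (∫⁻ v : ℂ, ENNReal.ofReal (‖v‖ ^ (-(19 / 25) : ℝ) * ‖v - 1‖ ^ (-(44 / 25) : ℝ))) := by
  have h1 := lintegral_two (p := 33 / 50) (d := 44 / 25) hw
  have h2 := lintegral_two (p := 19 / 25) (d := 44 / 25) hw
  have x1 : (2 - 33 / 50 - 44 / 25 : ℝ) = -(21 / 50) := by norm_num
  have x2 : (2 - 19 / 25 - 44 / 25 : ℝ) = -(13 / 25) := by norm_num
  rw [x1] at h1
  rw [x2] at h2
  set w := (1 - (t : ℂ)) * l + t * (k * u) with hwdef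
  set A1 := (‖u‖ + 1) ^ (1 : ℝ) * (‖u‖ ^ (-(32 / 25) : ℝ) * ‖(j : ℂ) * u - 1‖ ^ (-(44 / 25) : ℝ))
    with hA1
  set A2 := (‖u‖ + 1) ^ (11 / 10 : ℝ) *
    (‖u‖ ^ (-(32 / 25) : ℝ) * ‖(j : ℂ) * u - 1‖ ^ (-(44 / 25) : ℝ)) with hA2
  have hA10 : 0 ≤ A1 := by positivity
  have hA20 : 0 ≤ A2 := by positivity
  calc ∫⁻ v : ℂ, ENNReal.ofReal (Fj t j k l u v 1)
      ≤ ∫⁻ v : ℂ, (ENNReal.ofReal A1 *
          ENNReal.ofReal (‖v‖ ^ (-(33 / 50) : ℝ) * ‖v - w‖ ^ (-(44 / 25) : ℝ)) +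
          ENNReal.ofReal A2 *
          ENNReal.ofReal (‖v‖ ^ (-(19 / 25) : ℝ) * ‖v - w‖ ^ (-(44 / 25) : ℝ))) := by
        refine lintegral_mono fun v => ?_
        rw [← ENNReal.ofReal_mul hA10, ← ENNReal.ofReal_mul hA20,
          ← ENNReal.ofReal_add (by positivity) (by positivity)]
        exact ENNReal.ofReal_le_ofReal (Fj_le t j k l u v)
    _ = ENNReal.ofReal A1 * (∫⁻ v : ℂ,
          ENNReal.ofReal (‖v‖ ^ (-(33 / 50) : ℝ) * ‖v - w‖ ^ (-(44 / 25) : ℝ))) +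
        ENNReal.ofReal A2 * (∫⁻ v : ℂ,
          ENNReal.ofReal (‖v‖ ^ (-(19 / 25) : ℝ) * ‖v - w‖ ^ (-(44 / 25) : ℝ))) := by
        rw [lintegral_add_left (by fun_prop), lintegral_const_mul _ (by fun_prop),
          lintegral_const_mul _ (by fun_prop)]
    _ = _ := by
        rw [h1, h2, ← mul_assoc, ← mul_assoc, ← ENNReal.ofReal_mul hA10,
          ← ENNReal.ofReal_mul hA20, hA1, hA2]
        congr 3 <;> ring

/-- the double integral at height one is finite. -/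
lemma Fj_one_lt_top {t j k l : ℝ} (ht : 0 < t) (ht1 : t < 1) (hj : 0 < j) (hk : 0 < k)
    (hl : 0 < l) :
    ∫⁻ u : ℂ, ∫⁻ v : ℂ, ENNReal.ofReal (Fj t j k l u v 1) < ⊤ := by
  have htc : (t : ℂ) ≠ 0 := by exact_mod_cast ht.ne'
  have hkc : (k : ℂ) ≠ 0 := by exact_mod_cast hk.ne'
  set C1 := ∫⁻ v : ℂ, ENNReal.ofReal (‖v‖ ^ (-(33 / 50) : ℝ) * ‖v - 1‖ ^ (-(44 / 25) : ℝ)) with hC1
  set C2 := ∫⁻ v : ℂ, ENNReal.ofReal (‖v‖ ^ (-(19 / 25) : ℝ) * ‖v - 1‖ ^ (-(44 / 25) : ℝ)) with hC2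
  have hC1t : C1 < ⊤ := lintegral_lt_top_of_integrable
    (two_point (by norm_num) (by norm_num) (by norm_num) (by norm_num) (by norm_num))
  have hC2t : C2 < ⊤ := lintegral_lt_top_of_integrable
    (two_point (by norm_num) (by norm_num) (by norm_num) (by norm_num) (by norm_num))
  have hD1 := lintegral_lt_top_of_integrable (u_integrable (s := 1) (r := 21 / 50) ht ht1 hj hk hl
    (by norm_num) (by norm_num) (by norm_num) (by norm_num) (by norm_num))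
  have hD2 := lintegral_lt_top_of_integrable (u_integrable (s := 11 / 10) (r := 13 / 25) ht ht1
    hj hk hl (by norm_num) (by norm_num) (by norm_num) (by norm_num) (by norm_num))
  have hae : ∀ᵐ u : ℂ, (1 - (t : ℂ)) * l + t * (k * u) ≠ 0 := by
    have hset : {u : ℂ | ¬ ((1 - (t : ℂ)) * l + t * (k * u) ≠ 0)} ⊆
        {-((1 - (t : ℂ)) * l) / (t * k)} := by
      intro u hu
      have hu' : (1 - (t : ℂ)) * l + t * (k * u) = 0 := not_not.1 hu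
      show u = _
      rw [eq_div_iff (mul_ne_zero htc hkc)]
      linear_combination hu'
    exact measure_mono_null hset (measure_singleton _)
  calc ∫⁻ u : ℂ, ∫⁻ v : ℂ, ENNReal.ofReal (Fj t j k l u v 1)
      ≤ ∫⁻ u : ℂ, (ENNReal.ofReal ((‖u‖ + 1) ^ (1 : ℝ) * (‖u‖ ^ (-(32 / 25) : ℝ) *
        ‖(j : ℂ) * u - 1‖ ^ (-(44 / 25) : ℝ) *
          ‖(1 - (t : ℂ)) * l + t * (k * u)‖ ^ (-(21 / 50) : ℝ))) * C1 +
        ENNReal.ofReal ((‖u‖ + 1) ^ (11 / 10 : ℝ) * (‖u‖ ^ (-(32 / 25) : ℝ) *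
        ‖(j : ℂ) * u - 1‖ ^ (-(44 / 25) : ℝ) *
          ‖(1 - (t : ℂ)) * l + t * (k * u)‖ ^ (-(13 / 25) : ℝ))) * C2) :=
        lintegral_mono_ae (hae.mono fun u hu => Fj_inner u hu)
    _ = (∫⁻ u : ℂ, ENNReal.ofReal ((‖u‖ + 1) ^ (1 : ℝ) * (‖u‖ ^ (-(32 / 25) : ℝ) *
        ‖(j : ℂ) * u - 1‖ ^ (-(44 / 25) : ℝ) *
          ‖(1 - (t : ℂ)) * l + t * (k * u)‖ ^ (-(21 / 50) : ℝ)))) * C1 +
        (∫⁻ u : ℂ, ENNReal.ofReal ((‖u‖ + 1) ^ (11 / 10 : ℝ) * (‖u‖ ^ (-(32 / 25) : ℝ) *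
        ‖(j : ℂ) * u - 1‖ ^ (-(44 / 25) : ℝ) *
          ‖(1 - (t : ℂ)) * l + t * (k * u)‖ ^ (-(13 / 25) : ℝ)))) * C2 := by
        rw [lintegral_add_left (by fun_prop), lintegral_mul_const _ (by fun_prop),
          lintegral_mul_const _ (by fun_prop)]
    _ < ⊤ := ENNReal.add_lt_top.2 ⟨ENNReal.mul_lt_top hD1 hC1t, ENNReal.mul_lt_top hD2 hC2t⟩

/-- the double integral at height `z`. -/
lemma Fj_height (t j k l : ℝ) {z : ℂ} (hz : z ≠ 0) :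
    ∫⁻ x : ℂ, ∫⁻ y : ℂ, ENNReal.ofReal (Fj t j k l x y z) =
      ENNReal.ofReal (‖z‖ ^ (-(99 / 50) : ℝ)) *
        ∫⁻ u : ℂ, ∫⁻ v : ℂ, ENNReal.ofReal (Fj t j k l u v 1) := by
  have hzn : 0 < ‖z‖ := norm_pos_iff.2 hz
  have hm : Measurable (fun p : ℂ × ℂ => Fj t j k l p.1 p.2 1) := by
    unfold Fj mf; fun_prop
  have hm1 : ∀ u : ℂ, Measurable (fun v : ℂ => Fj t j k l u v 1) := fun u => by
    unfold Fj mf; fun_prop
  have e1 : ∀ u : ℂ, ∫⁻ y : ℂ, ENNReal.ofReal (Fj t j k l (z * u) y z) =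
      (ENNReal.ofReal (‖z‖ ^ 2) * ENNReal.ofReal (‖z‖ ^ (-(299 / 50) : ℝ))) *
        ∫⁻ v : ℂ, ENNReal.ofReal (Fj t j k l u v 1) := by
    intro u
    rw [lintegral_scale hz]
    simp_rw [Fj_scale t j k l hz, ENNReal.ofReal_mul (Real.rpow_nonneg (norm_nonneg z) _)]
    rw [lintegral_const_mul _ (hm1 u).ennreal_ofReal, mul_assoc]
  rw [lintegral_scale hz]
  simp_rw [e1]
  rw [lintegral_const_mul _ (hm.ennreal_ofReal.lintegral_prod_right'), ← mul_assoc,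
    ← ENNReal.ofReal_mul (by positivity), ← ENNReal.ofReal_mul (by positivity)]
  congr 2
  rw [← Real.rpow_natCast ‖z‖ 2, ← Real.rpow_add hzn, ← Real.rpow_add hzn]
  congr 1; norm_num

lemma Fj_integrableOn {t j k l : ℝ} (ht : 0 < t) (ht1 : t < 1) (hj : 0 < j) (hk : 0 < k)
    (hl : 0 < l) (R : ℝ) :
    IntegrableOn (fun p : ℂ × ℂ × ℂ => Fj t j k l p.1 p.2.1 p.2.2)
      {p : ℂ × ℂ × ℂ | p.2.2 ∈ ball (0 : ℂ) R} := by
  have hms : MeasurableSet {p : ℂ × ℂ × ℂ | p.2.2 ∈ ball (0 : ℂ) R} :=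
    measurableSet_ball.preimage (by fun_prop)
  rw [← integrable_indicator_iff hms]
  set g : ℂ × ℂ × ℂ → ENNReal := fun p =>
    Set.indicator (ball (0 : ℂ) R) (fun _ => (1 : ENNReal)) p.2.2 *
      ENNReal.ofReal (Fj t j k l p.1 p.2.1 p.2.2) with hg
  have hgm : Measurable g := by
    refine Measurable.mul ?_ (Fj_meas t j k l).ennreal_ofReal
    exact (measurable_const.indicator measurableSet_ball).comp (by fun_prop)
  refine ⟨((Fj_meas t j k l).indicator hms).aestronglyMeasurable, ?_⟩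
  have hle : ∫⁻ p, ‖Set.indicator {p : ℂ × ℂ × ℂ | p.2.2 ∈ ball (0 : ℂ) R}
      (fun p : ℂ × ℂ × ℂ => Fj t j k l p.1 p.2.1 p.2.2) p‖ₑ = ∫⁻ p, g p := by
    refine lintegral_congr fun p => ?_
    by_cases hp : p.2.2 ∈ ball (0 : ℂ) R
    · rw [Set.indicator_of_mem (s := {p : ℂ × ℂ × ℂ | p.2.2 ∈ ball (0 : ℂ) R}) hp, hg]
      simp only
      rw [Set.indicator_of_mem hp, one_mul, Real.enorm_of_nonneg (Fj_nonneg _ _ _ _ _ _ _)]
    · rw [Set.indicator_of_notMem (s := {p : ℂ × ℂ × ℂ | p.2.2 ∈ ball (0 : ℂ) R}) hp, hg]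
      simp only
      rw [Set.indicator_of_notMem hp, zero_mul, enorm_zero]
  show ∫⁻ p, _ < ⊤
  rw [hle]
  have h1 : ∫⁻ p, g p = ∫⁻ z : ℂ, ∫⁻ x : ℂ, ∫⁻ y : ℂ, g (x, y, z) := by
    rw [Measure.volume_eq_prod, lintegral_prod _ hgm.aemeasurable]
    have h2 : ∀ x : ℂ, ∫⁻ q : ℂ × ℂ, g (x, q) = ∫⁻ z : ℂ, ∫⁻ y : ℂ, g (x, y, z) := by
      intro x
      rw [Measure.volume_eq_prod]
      exact lintegral_prod_symm _ (hgm.comp (by fun_prop)).aemeasurable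
    simp_rw [h2]
    refine lintegral_lintegral_swap (Measurable.aemeasurable ?_)
    exact Measurable.lintegral_prod_right' (f := fun r : (ℂ × ℂ) × ℂ => g (r.1.1, r.2, r.1.2))
      (hgm.comp (by fun_prop))
  rw [h1]
  have h3 : ∀ᵐ z : ℂ, ∫⁻ x : ℂ, ∫⁻ y : ℂ, g (x, y, z) =
      ENNReal.ofReal (Set.indicator (ball (0 : ℂ) R) (fun z : ℂ => ‖z - 0‖ ^ (-(99 / 50) : ℝ)) z) *
        ∫⁻ u : ℂ, ∫⁻ v : ℂ, ENNReal.ofReal (Fj t j k l u v 1) := by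
    have hae : ∀ᵐ z : ℂ, z ≠ 0 := by
      have hset : {z : ℂ | ¬ (z ≠ 0)} ⊆ {0} := fun z hz => not_not.1 hz
      exact measure_mono_null hset (measure_singleton _)
    refine hae.mono fun z hz => ?_
    by_cases hR : z ∈ ball (0 : ℂ) R
    · rw [Set.indicator_of_mem hR, sub_zero, ← Fj_height t j k l hz]
      refine lintegral_congr fun x => lintegral_congr fun y => ?_
      rw [hg]
      simp only
      rw [Set.indicator_of_mem hR, one_mul]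
    · rw [Set.indicator_of_notMem hR, ENNReal.ofReal_zero, zero_mul]
      have : ∀ x y : ℂ, g (x, y, z) = 0 := fun x y => by
        rw [hg]
        simp only
        rw [Set.indicator_of_notMem hR, zero_mul]
      simp_rw [this, lintegral_zero]
  rw [lintegral_congr_ae h3, lintegral_mul_const]
  · refine ENNReal.mul_lt_top ?_ (Fj_one_lt_top ht ht1 hj hk hl)
    exact lintegral_lt_top_of_integrable (sing_integrable (by norm_num) 0 R)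
  · refine Measurable.ennreal_ofReal (Measurable.indicator ?_ measurableSet_ball)
    fun_prop

theorem dom_integrable {t : ℝ} (ht : 0 < t) (ht1 : t < 1) (R : ℝ) : Integrable (Dom t R) := by
  have key : ∀ j k l : ℝ, 0 < j → 0 < k → 0 < l →
      Integrable (Set.indicator {p : ℂ × ℂ × ℂ | p.2.2 ∈ ball (0 : ℂ) (R + 1)}
        (fun p : ℂ × ℂ × ℂ => Fj t j k l p.1 p.2.1 p.2.2)) := by
    intro j k l hj hk hl
    exact (integrable_indicator_iff (measurableSet_ball.preimage (by fun_prop))).2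
      (Fj_integrableOn ht ht1 hj hk hl (R + 1))
  have hsum := ((((key 2 4 2 (by norm_num) (by norm_num) (by norm_num)).add
    (key 2 2 1 (by norm_num) (by norm_num) (by norm_num))).add
    (key 2 2 2 (by norm_num) (by norm_num) (by norm_num))).add
    (key 2 1 1 (by norm_num) (by norm_num) (by norm_num))).add
    ((((key 1 4 2 (by norm_num) (by norm_num) (by norm_num)).add
    (key 1 2 1 (by norm_num) (by norm_num) (by norm_num))).add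
    (key 1 2 2 (by norm_num) (by norm_num) (by norm_num))).add
    (key 1 1 1 (by norm_num) (by norm_num) (by norm_num)))
  refine hsum.mono' ?_ (Filter.Eventually.of_forall fun p => ?_)
  · refine Measurable.aestronglyMeasurable ?_
    unfold Dom
    refine Measurable.ite ?_ ?_ measurable_const
    · have m1 : MeasurableSet {p : ℂ × ℂ × ℂ | ‖p.1‖ ≤ R} :=
        measurableSet_le (by fun_prop) measurable_const
      have m2 : MeasurableSet {p : ℂ × ℂ × ℂ | ‖p.2.1‖ ≤ R} :=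
        measurableSet_le (by fun_prop) measurable_const
      have m3 : MeasurableSet {p : ℂ × ℂ × ℂ | ‖p.2.2‖ ≤ R} :=
        measurableSet_le (by fun_prop) measurable_const
      exact m1.inter (m2.inter m3)
    · unfold mf; fun_prop
  · have hnn : ∀ j k l : ℝ, 0 ≤ Set.indicator {p : ℂ × ℂ × ℂ | p.2.2 ∈ ball (0 : ℂ) (R + 1)}
        (fun p : ℂ × ℂ × ℂ => Fj t j k l p.1 p.2.1 p.2.2) p := fun j k l =>
      Set.indicator_nonneg (fun q _ => Fj_nonneg _ _ _ _ _ _ _) p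
    unfold Dom
    split_ifs with hp
    · have hmem : p ∈ {p : ℂ × ℂ × ℂ | p.2.2 ∈ ball (0 : ℂ) (R + 1)} := by
        show p.2.2 ∈ ball (0 : ℂ) (R + 1)
        rw [mem_ball, dist_zero_right]
        linarith [hp.2.2]
      simp only [Pi.add_apply]
      rw [Real.norm_of_nonneg (by positivity)]
      simp only [Set.indicator_of_mem hmem]
      apply le_of_eq
      unfold Fj
      simp only [Complex.ofReal_ofNat, Complex.ofReal_one, one_mul]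
      ring
    · rw [norm_zero]
      simp only [Pi.add_apply]
      have := hnn 2 4 2
      have := hnn 2 2 1
      have := hnn 2 2 2
      have := hnn 2 1 1
      have := hnn 1 4 2
      have := hnn 1 2 1
      have := hnn 1 2 2
      have := hnn 1 1 1
      linarith

end Pool.Agent.helper11.AZ
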